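import Mathlib
import Pool.Agent.Helper837.ChainCore

/-!
`limsup g(k,n)/n ≤ ⌊k/2⌋ + 1` for the Erdős–Szekeres type function `g(k,n)` of Károlyi and Tóth.
-/

set_option autoImplicit false

open Finset Filter
open Pool.Agent.Helper837.ChainExt

namespace Pool.Agent.Results.MP_ec6744_co.HalfGrowth

/-- the Euclidean plane -/
abbrev Pl := EuclideanSpace ℝ (Fin 2)

/-- no three points of `S` lie on a line -/
def GenPos (S : Finset Pl) : Prop :=
  ∀ a ∈ S, ∀ b ∈ S, ∀ c ∈ S, a ≠ b → a ≠ c → b ≠ c → ¬ Collinear ℝ ({a, b, c} : Set Pl)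

/-- number of vertices of the convex hull of `T` -/
noncomputable def hullVertices (T : Finset Pl) : ℕ :=
  ({p : Pl | p ∈ T ∧ p ∉ convexHull ℝ ((T : Set Pl) \ {p})}).ncard

/-- the function `g(k,n)` of the problem -/
noncomputable def g (k n : ℕ) : ℕ :=
  sInf {N : ℕ | ∀ S : Finset Pl, S.card = N → GenPos S →
    ∃ T : Finset Pl, T ⊆ S ∧ T.card = n ∧ k ≤ hullVertices T}

/-! ### Choice of parameters -/

lemma real_ineq {s n D l N M k b ρ η : ℝ} (hs0 : 0 ≤ s) (hρ0 : 0 ≤ ρ) (hρ1 : ρ ≤ 1)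
    (hN0 : 0 ≤ N) (hl0 : 0 ≤ l) (hsn : s * n ≤ (1 - ρ) * N) (hD1 : D ≤ η * N)
    (hsη : s * η = ρ / 4) (hM : M ≤ ρ / 4 * N) (hl' : k + b + 2 * s ≤ ρ / 4 * l) :
    s * (n + D) * (l + 2) ≤ (N - M) * (l + 3 - k - b - 2 * s) := by
  have h1 : s * (n + D) ≤ (1 - 3 * ρ / 4) * N := by
    have : s * D ≤ s * (η * N) := mul_le_mul_of_nonneg_left hD1 hs0
    have h3 : s * (η * N) = ρ / 4 * N := by rw [← hsη]; ring
    have h4 : s * (n + D) = s * n + s * D := by ring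
    rw [h4]
    linarith
  have h2 : (1 - ρ / 4) * N ≤ N - M := by linarith
  have h3 : (1 - ρ / 4) * (l + 2) ≤ l + 3 - k - b - 2 * s := by linarith
  have h4 : 0 ≤ (1 - ρ / 4) * N := mul_nonneg (by linarith) hN0
  have h5 : 0 ≤ (1 - ρ / 4) * (l + 2) := mul_nonneg (by linarith) (by linarith)
  calc s * (n + D) * (l + 2) ≤ (1 - 3 * ρ / 4) * N * (l + 2) :=
        mul_le_mul_of_nonneg_right h1 (by linarith)
    _ ≤ ((1 - ρ / 4) * N) * ((1 - ρ / 4) * (l + 2)) := by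
        have h6 : 0 ≤ N * (l + 2) := mul_nonneg hN0 (by linarith)
        have h7 : (1 - 3 * ρ / 4) ≤ (1 - ρ / 4) * (1 - ρ / 4) := by nlinarith
        calc (1 - 3 * ρ / 4) * N * (l + 2) = (1 - 3 * ρ / 4) * (N * (l + 2)) := by ring
          _ ≤ ((1 - ρ / 4) * (1 - ρ / 4)) * (N * (l + 2)) :=
            mul_le_mul_of_nonneg_right h7 h6
          _ = _ := by ring
    _ ≤ (N - M) * (l + 3 - k - b - 2 * s) :=
        mul_le_mul h2 h3 h5 (le_trans h4 h2)

lemma planar (k : ℕ) (hk : 3 ≤ k) (ε : ℝ) (hε : 0 < ε) :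
    ∃ n₀ : ℕ, ∀ n ≥ n₀, ∀ P : Finset (ℝ × ℝ), GP P →
      (((k / 2 : ℕ) : ℝ) + 1 + ε) * n ≤ P.card →
      ∃ T ⊆ P, n ≤ T.card ∧ k ≤ (ext T).card := by
  set s : ℕ := k / 2 + 1 with hs
  have hs0 : (0:ℝ) < s := by rw [hs]; positivity
  have hs1 : ((k / 2 : ℕ) : ℝ) + 1 = s := by rw [hs]; push_cast; ring
  set ρ : ℝ := ε / (s + ε) with hρ
  have hρ0 : 0 < ρ := by positivity
  have hρ1 : ρ < 1 := by rw [hρ, div_lt_one (by positivity)]; linarith
  set η : ℝ := ρ / (4 * s) with hη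
  have hη0 : 0 < η := by positivity
  have hsη : s * η = ρ / 4 := by rw [hη]; field_simp
  obtain ⟨b, hb⟩ := exists_nat_ge (2 * ((k:ℝ) - 2) / η)
  obtain ⟨l, hl⟩ := exists_nat_ge (4 * ((k:ℝ) + b + 2 * s) / ρ)
  obtain ⟨n₁, hn₁⟩ := exists_nat_ge (4 * (2 ^ (l * l) : ℝ) / ρ)
  refine ⟨n₁ + 1, ?_⟩
  intro n hn P hP hPn
  by_contra hcon
  push Not at hcon
  set N : ℕ := P.card with hN
  have hnN : (n:ℝ) * (s + ε) ≤ N := by rw [hs1] at hPn; linarith
  have hk3 : (3:ℝ) ≤ k := by exact_mod_cast hk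
  have hs1' : (1:ℝ) ≤ s := by rw [← hs1]; linarith [Nat.cast_nonneg (α := ℝ) (k / 2)]
  have hn0 : (0:ℝ) ≤ n := Nat.cast_nonneg n
  have hNn : (n:ℝ) ≤ N := by nlinarith
  have hn1N : (n₁:ℝ) ≤ N := by
    have : (n₁:ℝ) + 1 ≤ n := by exact_mod_cast hn
    linarith
  have hsn : s * (n:ℝ) ≤ (1 - ρ) * N := by
    have h1 : (1 - ρ) = s / (s + ε) := by rw [hρ]; field_simp; ring
    rw [h1, div_mul_eq_mul_div, le_div_iff₀ (by positivity)]
    nlinarith
  set D : ℕ := ⌊η * N⌋₊ with hD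
  have hD1 : (D:ℝ) ≤ η * N := Nat.floor_le (by positivity)
  have hD2 : η * N < D + 1 := Nat.lt_floor_add_one _
  have hN0 : (0:ℝ) ≤ N := Nat.cast_nonneg N
  have hM : (2 ^ (l * l) : ℝ) ≤ ρ / 4 * N := by
    have h1 := hn₁.trans hn1N
    rw [div_le_iff₀ hρ0] at h1
    linarith
  have hl' : (k:ℝ) + b + 2 * s ≤ ρ / 4 * l := by
    rw [div_le_iff₀ hρ0] at hl
    linarith
  have hlc : k + b + 2 * s ≤ l := by
    have : (k:ℝ) + b + 2 * s ≤ l := by
      have : (0:ℝ) ≤ l := Nat.cast_nonneg l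
      nlinarith
    exact_mod_cast this
  have hMc : 2 ^ (l * l) ≤ N := by
    have : (2 ^ (l * l) : ℝ) ≤ N := by nlinarith
    exact_mod_cast this
  refine core hP k n l D b hk (by omega) (by omega) ?_ ?_ ?_ ?_
  · intro T hT hTn
    exact hcon T hT hTn
  · -- hA
    rw [← hN, ← hs]
    have hsub1 : ((N - 2 ^ (l * l) : ℕ) : ℝ) = N - 2 ^ (l * l) := by
      rw [Nat.cast_sub hMc]; push_cast; ring
    have hsub2 : ((l + 2 - k + 1 - b - 2 * s : ℕ) : ℝ) = l + 3 - k - b - 2 * s := by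
      have : l + 2 - k + 1 - b - 2 * s = l + 3 - (k + b + 2 * s) := by omega
      rw [this, Nat.cast_sub (by omega)]
      push_cast; ring
    have hreal : (s:ℝ) * (n + D) * (l + 2) ≤
        (N - 2 ^ (l * l)) * (l + 3 - k - b - 2 * s) :=
      real_ineq hs0.le hρ0.le hρ1.le hN0 (Nat.cast_nonneg l) hsn hD1 hsη hM hl'
    have : (((s * (n + D) * (l + 2) : ℕ)) : ℝ) ≤
        (((N - 2 ^ (l * l)) * (l + 2 - k + 1 - b - 2 * s) : ℕ) : ℝ) := by
      rw [Nat.cast_mul (N - 2 ^ (l * l)), hsub1, hsub2]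
      push_cast
      exact hreal
    exact_mod_cast this
  · -- hB
    rw [← hN]
    have hk2 : ((k - 2 : ℕ) : ℝ) = (k:ℝ) - 2 := by
      rw [Nat.cast_sub (by omega)]; norm_num
    have hreal : 2 * ((k:ℝ) - 2) * N ≤ b * (D + 1) := by
      rw [div_le_iff₀ hη0] at hb
      have hb0 : (0:ℝ) ≤ b := Nat.cast_nonneg b
      calc 2 * ((k:ℝ) - 2) * N ≤ (b * η) * N := mul_le_mul_of_nonneg_right hb hN0
        _ = b * (η * N) := by ring
        _ ≤ b * (D + 1) := mul_le_mul_of_nonneg_left hD2.le hb0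
    have : ((2 * (k - 2) * N : ℕ) : ℝ) ≤ ((b * (D + 1) : ℕ) : ℝ) := by
      push_cast [hk2]
      exact hreal
    exact_mod_cast this
  · -- hC
    rw [← hN, ← hs]
    have hks : ((k / 2 : ℕ) : ℝ) ≤ s := by rw [← hs1]; linarith
    have hreal : (s:ℝ) * n + ((k / 2 : ℕ) : ℝ) * D ≤ N := by
      have h1 : ((k / 2 : ℕ) : ℝ) * D ≤ s * (η * N) :=
        mul_le_mul hks hD1 (Nat.cast_nonneg D) hs0.le
      have h3 : (s:ℝ) * (η * N) = ρ / 4 * N := by rw [← hsη]; ring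
      nlinarith
    exact_mod_cast hreal

/-! ### Transport to the Euclidean plane -/

/-- shear map -/
noncomputable def shear (δ : ℝ) : Pl →ₗ[ℝ] ℝ × ℝ where
  toFun p := (p 0 + δ * p 1, p 1)
  map_add' p q := by
    ext <;> simp
    ring
  map_smul' c p := by
    ext <;> simp
    ring

lemma shear_inj (δ : ℝ) : Function.Injective (shear δ) := by
  intro p q h
  have h1 : p 0 + δ * p 1 = q 0 + δ * q 1 := (Prod.ext_iff.1 h).1
  have h2 : p 1 = q 1 := (Prod.ext_iff.1 h).2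
  rw [h2] at h1
  have h0 : p 0 = q 0 := by linarith
  ext i
  fin_cases i
  · exact h0
  · exact h2

open Classical in
lemma exists_shear (S : Finset Pl) : ∃ δ : ℝ, ∀ p ∈ S, ∀ q ∈ S, p ≠ q →
    (shear δ p).1 ≠ (shear δ q).1 := by
  obtain ⟨δ, hδ⟩ := Infinite.exists_notMem_finset
    ((S ×ˢ S).image (fun pq : Pl × Pl => -(pq.1 0 - pq.2 0) / (pq.1 1 - pq.2 1)))
  refine ⟨δ, ?_⟩
  intro p hp q hq hpq h
  have h1 : p 0 + δ * p 1 = q 0 + δ * q 1 := h
  by_cases h2 : p 1 = q 1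
  · apply hpq
    apply shear_inj δ
    exact Prod.ext h h2
  · apply hδ
    refine mem_image.2 ⟨(p, q), mem_product.2 ⟨hp, hq⟩, ?_⟩
    have h3 : p 1 - q 1 ≠ 0 := sub_ne_zero.2 h2
    simp only
    rw [div_eq_iff h3]
    linarith

lemma collinear_of_det {a b c : Pl} (hab : a ≠ b)
    (h : (b 0 - a 0) * (c 1 - a 1) - (b 1 - a 1) * (c 0 - a 0) = 0) :
    Collinear ℝ ({a, b, c} : Set Pl) := by
  rw [collinear_iff_of_mem (p₀ := a) (by simp)]
  refine ⟨b - a, ?_⟩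
  intro p hp
  have hne : b 0 - a 0 ≠ 0 ∨ b 1 - a 1 ≠ 0 := by
    by_contra hcon
    push Not at hcon
    apply hab
    ext i
    fin_cases i
    · show a 0 = b 0; linarith [hcon.1]
    · show a 1 = b 1; linarith [hcon.2]
  rcases hp with rfl | rfl | hp
  · exact ⟨0, by simp⟩
  · exact ⟨1, by simp⟩
  · have hpc : p = c := hp
    subst hpc
    rcases hne with h0 | h0
    · refine ⟨(p 0 - a 0) / (b 0 - a 0), ?_⟩
      ext i
      fin_cases i
      · simp only [Fin.zero_eta, Fin.isValue, vadd_eq_add, PiLp.add_apply, PiLp.smul_apply,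
          PiLp.sub_apply, smul_eq_mul]
        rw [div_mul_cancel₀ _ h0]; ring
      · simp only [Fin.mk_one, Fin.isValue, vadd_eq_add, PiLp.add_apply, PiLp.smul_apply,
          PiLp.sub_apply, smul_eq_mul]
        field_simp
        linarith
    · refine ⟨(p 1 - a 1) / (b 1 - a 1), ?_⟩
      ext i
      fin_cases i
      · simp only [Fin.zero_eta, Fin.isValue, vadd_eq_add, PiLp.add_apply, PiLp.smul_apply,
          PiLp.sub_apply, smul_eq_mul]
        field_simp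
        linarith
      · simp only [Fin.mk_one, Fin.isValue, vadd_eq_add, PiLp.add_apply, PiLp.smul_apply,
          PiLp.sub_apply, smul_eq_mul]
        rw [div_mul_cancel₀ _ h0]; ring

open Classical in
lemma gp_image {S : Finset Pl} (hS : GenPos S) {δ : ℝ}
    (hδ : ∀ p ∈ S, ∀ q ∈ S, p ≠ q → (shear δ p).1 ≠ (shear δ q).1) : GP (S.image (shear δ)) := by
  constructor
  · intro p hp q hq hpq
    obtain ⟨a, ha, rfl⟩ := mem_image.1 hp
    obtain ⟨b, hb, rfl⟩ := mem_image.1 hq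
    exact hδ a ha b hb (fun h => hpq (by rw [h]))
  · intro p hp q hq r hr hpq hpr hqr hdet
    obtain ⟨a, ha, rfl⟩ := mem_image.1 hp
    obtain ⟨b, hb, rfl⟩ := mem_image.1 hq
    obtain ⟨c, hc, rfl⟩ := mem_image.1 hr
    have hab : a ≠ b := fun h => hpq (by rw [h])
    have hac : a ≠ c := fun h => hpr (by rw [h])
    have hbc : b ≠ c := fun h => hqr (by rw [h])
    refine hS a ha b hb c hc hab hac hbc (collinear_of_det hab ?_)
    have h1 : ∀ u : Pl, shear δ u = (u 0 + δ * u 1, u 1) := fun u => rfl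
    rw [h1, h1, h1] at hdet
    unfold det2 at hdet
    simp only [Prod.fst_sub, Prod.snd_sub] at hdet
    linarith

open Classical in
theorem planar' (k : ℕ) (hk : 3 ≤ k) (ε : ℝ) (hε : 0 < ε) :
    ∃ n₀ : ℕ, ∀ n ≥ n₀, ∀ S : Finset Pl, GenPos S →
      (((k / 2 : ℕ) : ℝ) + 1 + ε) * n ≤ S.card →
      ∃ T ⊆ S, T.card = n ∧ k ≤ hullVertices T := by
  obtain ⟨n₀, hn₀⟩ := planar k hk ε hε
  refine ⟨max n₀ k, ?_⟩
  intro n hn S hS hSn
  obtain ⟨δ, hδ⟩ := exists_shear S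
  have hinj := shear_inj δ
  have hPc : (S.image (shear δ)).card = S.card := card_image_of_injective _ hinj
  obtain ⟨T', hT'P, hT'n, hT'k⟩ := hn₀ n (le_trans (le_max_left _ _) hn) (S.image (shear δ))
    (gp_image hS hδ) (by rw [hPc]; exact hSn)
  obtain ⟨K, hK, hKc⟩ := exists_subset_card_eq hT'k
  have hKT' : K ⊆ T' := hK.trans (filter_subset _ _)
  obtain ⟨U, hKU, hUT', hUc⟩ := exists_subsuperset_card_eq hKT'
    (by rw [hKc]; exact le_trans (le_max_right _ _) hn) hT'n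
  have hpre : ∀ V : Finset (ℝ × ℝ), V ⊆ S.image (shear δ) →
      (S.filter (fun p => shear δ p ∈ V)).image (shear δ) = V := by
    intro V hV
    ext z
    constructor
    · intro hz
      obtain ⟨p, hp, rfl⟩ := mem_image.1 hz
      exact (mem_filter.1 hp).2
    · intro hz
      obtain ⟨p, hp, rfl⟩ := mem_image.1 (hV hz)
      exact mem_image.2 ⟨p, mem_filter.2 ⟨hp, hz⟩, rfl⟩
  have hprec : ∀ V : Finset (ℝ × ℝ), V ⊆ S.image (shear δ) →
      (S.filter (fun p => shear δ p ∈ V)).card = V.card := by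
    intro V hV
    rw [← card_image_of_injective _ hinj, hpre V hV]
  refine ⟨S.filter (fun p => shear δ p ∈ U), filter_subset _ _, ?_, ?_⟩
  · rw [hprec U (hUT'.trans hT'P), hUc]
  · have hsub : ((S.filter (fun p => shear δ p ∈ K) : Finset Pl) : Set Pl) ⊆
        {p : Pl | p ∈ S.filter (fun p => shear δ p ∈ U) ∧
          p ∉ convexHull ℝ (((S.filter (fun p => shear δ p ∈ U) : Finset Pl) : Set Pl) \ {p})} := by
      intro p hp
      obtain ⟨hpS, hpK⟩ := mem_filter.1 (mem_coe.1 hp)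
      refine ⟨mem_filter.2 ⟨hpS, hKU hpK⟩, ?_⟩
      intro hmem
      have h1 := (mem_filter.1 (hK hpK)).2
      apply h1
      have h2 : shear δ p ∈ (shear δ) ''
          convexHull ℝ (((S.filter (fun p => shear δ p ∈ U) : Finset Pl) : Set Pl) \ {p}) :=
        ⟨p, hmem, rfl⟩
      rw [LinearMap.image_convexHull] at h2
      refine convexHull_mono ?_ h2
      rintro z ⟨w, ⟨hw1, hw2⟩, rfl⟩
      refine ⟨?_, ?_⟩
      · exact mem_coe.2 (hUT' (mem_filter.1 (mem_coe.1 hw1)).2)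
      · intro h
        exact hw2 (hinj h)
    have hfin : ({p : Pl | p ∈ S.filter (fun p => shear δ p ∈ U) ∧
          p ∉ convexHull ℝ (((S.filter (fun p => shear δ p ∈ U) : Finset Pl) : Set Pl) \ {p})}).Finite :=
      (finite_toSet (S.filter (fun p => shear δ p ∈ U))).subset (fun p hp => mem_coe.2 hp.1)
    have := Set.ncard_le_ncard hsub hfin
    rw [Set.ncard_coe_finset, hprec K (hKT'.trans hT'P), hKc] at this
    exact this

theorem g_le (k : ℕ) (hk : 3 ≤ k) (ε : ℝ) (hε : 0 < ε) :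
    ∃ n₀ : ℕ, ∀ n ≥ n₀, (g k n : ℝ) ≤ (((k / 2 : ℕ) : ℝ) + 1 + ε) * n := by
  obtain ⟨n₀, hn₀⟩ := planar' k hk (ε / 2) (by positivity)
  obtain ⟨n₁, hn₁⟩ := exists_nat_ge (2 / ε)
  refine ⟨max n₀ n₁, ?_⟩
  intro n hn
  set a : ℝ := (((k / 2 : ℕ) : ℝ) + 1 + ε / 2) * n with ha
  have ha0 : 0 ≤ a := by positivity
  have h1 : g k n ≤ ⌈a⌉₊ := by
    apply Nat.sInf_le
    intro S hSc hS
    exact hn₀ n (le_trans (le_max_left _ _) hn) S hS (by rw [hSc]; exact Nat.le_ceil a)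
  have h2 : (⌈a⌉₊ : ℝ) < a + 1 := Nat.ceil_lt_add_one ha0
  have h3 : (g k n : ℝ) ≤ ⌈a⌉₊ := by exact_mod_cast h1
  have h4 : 2 / ε ≤ n := hn₁.trans (by exact_mod_cast le_trans (le_max_right _ _) hn)
  rw [div_le_iff₀ hε] at h4
  have h5 : a + 1 ≤ (((k / 2 : ℕ) : ℝ) + 1 + ε) * n := by rw [ha]; nlinarith
  linarith

/-- For every `k ≥ 3`: for every `ε > 0` and all large `n`, every planar point set in general
position with at least `(⌊k/2⌋ + 1 + ε) n` points has an `n`-element subset whose convex hull has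
at least `k` vertices; consequently `limsup g(k,n)/n ≤ ⌊k/2⌋ + 1`. -/
theorem result : ∀ k : ℕ, 3 ≤ k →
    (∀ ε : ℝ, 0 < ε → ∃ n₀ : ℕ, ∀ n ≥ n₀, ∀ S : Finset Pl, GenPos S →
      (((k / 2 : ℕ) : ℝ) + 1 + ε) * n ≤ S.card →
      ∃ T ⊆ S, T.card = n ∧ k ≤ hullVertices T) ∧
    limsup (fun n : ℕ => (g k n : ℝ) / n) atTop ≤ ((k / 2 : ℕ) : ℝ) + 1 := by
  intro k hk
  refine ⟨fun ε hε => planar' k hk ε hε, ?_⟩
  refine le_of_forall_pos_le_add ?_
  intro ε hε
  obtain ⟨n₀, hn₀⟩ := g_le k hk ε hε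
  refine limsup_le_of_le ?_ ?_
  · exact isCoboundedUnder_le_of_le atTop (x := 0) (fun n => by positivity)
  · filter_upwards [eventually_ge_atTop n₀, eventually_gt_atTop 0] with n hn hn0
    have : (0:ℝ) < n := by exact_mod_cast hn0
    rw [div_le_iff₀ this]
    exact hn₀ n hn

end Pool.Agent.Results.MP_ec6744_co.HalfGrowth
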