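import Mathlib
import Pool.Agent.Helper456.ES.Final

set_option autoImplicit false

namespace Pool.Agent.Results.MP_ec6744_co.HalfK

/-- no three points of `S` on a common line -/
def GenPos (S : Finset (EuclideanSpace ℝ (Fin 2))) : Prop :=
  ∀ a ∈ S, ∀ b ∈ S, ∀ c ∈ S, a ≠ b → a ≠ c → b ≠ c →
    ¬ Collinear ℝ ({a, b, c} : Set (EuclideanSpace ℝ (Fin 2)))

/-- some `n`-element subset of `S` has a convex hull with at least `k` vertices -/
def HasSubset (k n : ℕ) (S : Finset (EuclideanSpace ℝ (Fin 2))) : Prop :=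
  ∃ T : Finset (EuclideanSpace ℝ (Fin 2)), T ⊆ S ∧ T.card = n ∧
    k ≤ ({p : EuclideanSpace ℝ (Fin 2) | p ∈ T ∧
      p ∉ convexHull ℝ ((T : Set (EuclideanSpace ℝ (Fin 2))) \ {p})}).ncard

/-- the function `g(k,n)` of the problem (same formula as in the frozen statement) -/
noncomputable def g (k n : ℕ) : ℕ :=
  sInf {N : ℕ | ∀ S : Finset (EuclideanSpace ℝ (Fin 2)), S.card = N → GenPos S →
    HasSubset k n S}

open Pool.Agent.Helper456.ES in
lemma direct (k : ℕ) (hk : 3 ≤ k) (ε : ℝ) (hε : 0 < ε) :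
    ∃ n₀ : ℕ, ∀ n : ℕ, n₀ ≤ n → ∀ S : Finset (EuclideanSpace ℝ (Fin 2)), GenPos S →
      (((k / 2 : ℕ) : ℝ) + 1 + ε) * n ≤ S.card → HasSubset k n S := by
  classical
  obtain ⟨n₀, h⟩ := heavy_real hk hε
  refine ⟨max n₀ k, ?_⟩
  intro n hn S hS hcard
  have hGP : GP S := by
    intro a ha b hb c hc hab hac hbc hdet
    exact hS a ha b hb c hc hab hac hbc (collinear_of_det hab hdet)
  obtain ⟨T, hTS, hTn, hTk⟩ := h n (le_trans (le_max_left _ _) hn) S hGP hcard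
  obtain ⟨A, hA, hAc⟩ := Finset.exists_subset_card_eq hTk
  have hHT : HV T ⊆ T := Finset.filter_subset _ _
  have hkn : k ≤ n := le_trans (le_max_right _ _) hn
  obtain ⟨U, hAU, hUT, hUc⟩ := Finset.exists_subsuperset_card_eq (hA.trans hHT)
    (by rw [hAc]; exact hkn) hTn
  refine ⟨U, hUT.trans hTS, hUc, ?_⟩
  have hset : {p : EuclideanSpace ℝ (Fin 2) | p ∈ U ∧
      p ∉ convexHull ℝ ((U : Set (EuclideanSpace ℝ (Fin 2))) \ {p})} = (HV U : Set _) := by
    ext p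
    rw [Finset.mem_coe, mem_HV]
    rfl
  rw [hset, Set.ncard_coe_finset, ← hAc]
  apply Finset.card_le_card
  intro p hp
  exact HV_mono hUT (hA hp) (hAU hp)

/-- For every `k ≥ 3` and `ε > 0`, for all large `n`: `g(k,n)/n ≤ ⌊k/2⌋ + 1 + ε`, and every planar
point set in general position with at least `(⌊k/2⌋ + 1 + ε) n` points has an `n`-element subset
whose convex hull has at least `k` vertices. -/
theorem result : ∀ k : ℕ, 3 ≤ k → ∀ ε : ℝ, 0 < ε → ∃ n₀ : ℕ, ∀ n : ℕ, n₀ ≤ n →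
    (g k n : ℝ) / n ≤ ((k / 2 : ℕ) : ℝ) + 1 + ε ∧
    ∀ S : Finset (EuclideanSpace ℝ (Fin 2)), GenPos S →
      (((k / 2 : ℕ) : ℝ) + 1 + ε) * n ≤ S.card → HasSubset k n S := by
  intro k hk ε hε
  obtain ⟨n₁, h₁⟩ := direct k hk ε hε
  obtain ⟨n₂, h₂⟩ := direct k hk (ε / 2) (by positivity)
  obtain ⟨n₃, h₃⟩ := exists_nat_ge (2 / ε)
  refine ⟨max (max n₁ n₂) (max n₃ 1), ?_⟩
  intro n hn
  have hn1 : n₁ ≤ n := le_trans (le_trans (le_max_left _ _) (le_max_left _ _)) hn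
  have hn2 : n₂ ≤ n := le_trans (le_trans (le_max_right _ _) (le_max_left _ _)) hn
  have hn3 : n₃ ≤ n := le_trans (le_trans (le_max_left _ _) (le_max_right _ _)) hn
  have hn4 : 1 ≤ n := le_trans (le_trans (le_max_right _ _) (le_max_right _ _)) hn
  refine ⟨?_, h₁ n hn1⟩
  have hnpos : (0 : ℝ) < n := by exact_mod_cast hn4
  set N := ⌈(((k / 2 : ℕ) : ℝ) + 1 + ε / 2) * n⌉₊ with hN
  have hmem : N ∈ {N : ℕ | ∀ S : Finset (EuclideanSpace ℝ (Fin 2)), S.card = N → GenPos S →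
      HasSubset k n S} := by
    intro S hSN hS
    refine h₂ n hn2 S hS ?_
    rw [hSN]
    exact Nat.le_ceil _
  have hg : g k n ≤ N := Nat.sInf_le hmem
  have hgr : (g k n : ℝ) ≤ N := by exact_mod_cast hg
  have hN' : (N : ℝ) < (((k / 2 : ℕ) : ℝ) + 1 + ε / 2) * n + 1 := Nat.ceil_lt_add_one (by positivity)
  have h4 : (2 / ε : ℝ) ≤ n := h₃.trans (by exact_mod_cast hn3)
  have h5 : 2 ≤ ε * n := by
    rw [div_le_iff₀ hε] at h4
    linarith
  rw [div_le_iff₀ hnpos]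
  nlinarith

end Pool.Agent.Results.MP_ec6744_co.HalfK
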